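import Mathlib
import Pool.Agent.H284_beta.Defs
import Pool.Agent.H284_beta.Localize
import Pool.Agent.H284_beta.Select

/-!
# Vanishing of the Aomoto–Betti numbers at all primes `p > 5`

For every central complex hyperplane arrangement of rank at least three and every prime `p > 5`
the Aomoto–Betti number `β_p` vanishes.

Outline. A non-trivial class is a non-constant labelling `τ` of the hyperplanes with values in
`𝔽_p` such that `|X| τ_i = ∑_{j ∈ X} τ_j` for every rank two flat `X` and every `i ∈ X`; so two
hyperplanes with different labels meet in a flat whose multiplicity is divisible by `p`.  After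
localisation the rank is three.  The normal vectors can be put in weighted radial isotropic
position (`exists_frame`); comparing the sums of squares of inner products over all pairs and over
the pairs inside a rank two flat gives, for all admissible weights `w` with `∑ w_i = 3`,
`∑_X (w(X)^2 / 2 - ∑_{i ∈ X} w_i^2) ≤ 3 - ∑ w_i^2`.
A suitable choice of the weights, constant on two unions of level sets of `τ`, contradicts this
inequality as soon as `p ≥ 7`.
-/

set_option autoImplicit false

open Pool.Agent.H284_beta

namespace Pool.Agent.Results.MP_92491b_gt.PrimesAboveFive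

/-- For every central complex hyperplane arrangement of rank at least 3 and every prime `p > 5`
the Aomoto–Betti number `β_p` vanishes. -/
theorem result : ∀ (ℓ n : ℕ) (f : Fin n → (Fin ℓ → ℂ)),
    (∀ i j : Fin n, i ≠ j → LinearIndependent ℂ ![f i, f j]) →
    3 ≤ Module.finrank ℂ (Submodule.span ℂ (Set.range f)) →
    ∀ (p : ℕ) [Fact p.Prime], 5 < p → aomotoBetti (ZMod p) f = 0 := by
  classical
  intro ℓ n f hf hrank p hp' h5
  have hp : p.Prime := hp'.out
  have hp7 : 7 ≤ p := by
    by_contra hcon
    have h6 : p = 6 := by omega
    rw [h6] at hp
    exact absurd hp (by norm_num)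
  have hn : 0 < n := by
    rcases Nat.eq_zero_or_pos n with h0 | h0
    · subst h0
      have h1 : Submodule.span ℂ (Set.range f) = ⊥ := by
        rw [Submodule.span_eq_bot]
        rintro _ ⟨i, rfl⟩
        exact i.elim0
      rw [h1, finrank_bot] at hrank
      omega
    · exact h0
  refine aomotoBetti_eq_zero (ZMod p) hn ?_
  intro τ hτ
  have hres : Resonant (vecLine f) τ := resonant_of_OSrel f hf p τ hτ
  intro i j
  by_cases hij : i = j
  · rw [hij]
  · obtain ⟨b, hb, ⟨m, hm⟩, ⟨m', hm'⟩⟩ :=
      exists_basis_through f hf hrank (by norm_num) i j hij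
    obtain ⟨S, f', hbS, hf', hspan', hres'⟩ := localize f hf τ hres b hb
    have hf0 : ∀ i, f' i ≠ 0 := by
      intro i hi
      obtain ⟨j, hj⟩ : ∃ j : S, j ≠ i := by
        by_contra hcon
        push Not at hcon
        have h1 : Submodule.span ℂ (Set.range f') ≤ ⊥ := by
          rw [Submodule.span_le]
          rintro _ ⟨j, rfl⟩
          rw [hcon j, hi]
          exact Submodule.zero_mem _
        rw [hspan', top_le_iff] at h1
        have h2 := congrArg (fun W : Submodule ℂ (Fin 3 → ℂ) => Module.finrank ℂ W) h1
        simp only [finrank_bot, finrank_top, Module.finrank_fin_fun] at h2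
        omega
      have h1 := (hf' i j hj.symm).ne_zero 0
      exact h1 hi
    have h1 := resonant_const (isLinSp_vecLine f' hf') hp7 hres'
      (ineq3_vec f' hf' hspan' hf0) ⟨b m, hbS m⟩ ⟨b m', hbS m'⟩
    simp only [hm, hm'] at h1
    exact h1

end Pool.Agent.Results.MP_92491b_gt.PrimesAboveFive
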